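import Mathlib

set_option autoImplicit false
open Topology Filter Set

namespace Pool.Agent.Lib_MP_3dc43d_an

/-- Shift on ultrafilters of the natural numbers. -/
def sh (p : Ultrafilter ℕ) : Ultrafilter ℕ := p.map Nat.succ

theorem mem_sh (p : Ultrafilter ℕ) (s : Set ℕ) : s ∈ sh p ↔ {n | n + 1 ∈ s} ∈ p := Iff.rfl

theorem mem_sh_iter (j : ℕ) : ∀ (p : Ultrafilter ℕ) (s : Set ℕ),
    s ∈ sh^[j] p ↔ {n | n + j ∈ s} ∈ p := by
  induction j with
  | zero => intro p s; simp
  | succ j ih =>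
    intro p s
    rw [Function.iterate_succ_apply, ih (sh p) s, mem_sh]
    have : {n | n + 1 ∈ {n | n + j ∈ s}} = {n | n + (j + 1) ∈ s} := by
      ext n
      show n + 1 + j ∈ s ↔ n + (j + 1) ∈ s
      rw [show n + 1 + j = n + (j + 1) by ring]
    rw [this]

theorem continuous_sh : Continuous sh := by
  rw [ultrafilterBasis_is_basis.continuous_iff]
  rintro _ ⟨s, rfl⟩
  exact ultrafilter_isOpen_basic {n | n + 1 ∈ s}

theorem continuous_sh_iter (j : ℕ) : Continuous (sh^[j]) := continuous_sh.iterate j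

/-- A nonempty closed shift-invariant set of ultrafilters. -/
structure Inv (M : Set (Ultrafilter ℕ)) : Prop where
  ne : M.Nonempty
  closed : IsClosed M
  inv : ∀ p ∈ M, sh p ∈ M

theorem Inv.iter {M : Set (Ultrafilter ℕ)} (h : Inv M) (j : ℕ) :
    ∀ p ∈ M, sh^[j] p ∈ M := by
  induction j with
  | zero => intro p hp; simpa using hp
  | succ j ih =>
    intro p hp
    rw [Function.iterate_succ_apply]
    exact ih _ (h.inv p hp)

/-- Minimal elements. -/
structure IsMin (M : Set (Ultrafilter ℕ)) : Prop where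
  inv : Inv M
  min : ∀ M', Inv M' → M' ⊆ M → M' = M

theorem exists_isMin : ∃ M, IsMin M := by
  obtain ⟨M, -, hM⟩ := zorn_superset_nonempty {M : Set (Ultrafilter ℕ) | Inv M} (by
    intro c hc hchain hne
    have hcS : ∀ s ∈ c, Inv s := fun s hs => hc hs
    refine ⟨⋂₀ c, ?_, fun s hs => sInter_subset_of_mem hs⟩
    refine ⟨?_, isClosed_sInter fun s hs => (hcS s hs).closed, ?_⟩
    · rw [sInter_eq_iInter]
      haveI : Nonempty c := hne.coe_sort
      apply IsCompact.nonempty_iInter_of_directed_nonempty_isCompact_isClosed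
      · intro s t
        rcases hchain.total s.2 t.2 with h | h
        · exact ⟨s, subset_rfl, h⟩
        · exact ⟨t, h, subset_rfl⟩
      · exact fun s => (hcS s s.2).ne
      · exact fun s => (hcS s s.2).closed.isCompact
      · exact fun s => (hcS s s.2).closed
    · intro p hp
      rw [mem_sInter] at hp ⊢
      exact fun s hs => (hcS s hs).inv p (hp s hs))
    univ ⟨univ_nonempty, isClosed_univ, fun p _ => mem_univ _⟩
  refine ⟨M, hM.1, fun M' hM' hsub => subset_antisymm hsub (hM.2 hM' hsub)⟩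

/-- Uniform return to open sets meeting a minimal set. -/
theorem IsMin.syndetic {M : Set (Ultrafilter ℕ)} (hM : IsMin M) {O : Set (Ultrafilter ℕ)}
    (hO : IsOpen O) (hne : (O ∩ M).Nonempty) :
    ∃ N : ℕ, ∀ q ∈ M, ∃ j ≤ N, sh^[j] q ∈ O := by
  have hcov : M ⊆ ⋃ j : ℕ, (sh^[j]) ⁻¹' O := by
    by_contra hcon
    have hInv : Inv (M ∩ (⋃ j : ℕ, (sh^[j]) ⁻¹' O)ᶜ) := by
      refine ⟨?_, ?_, ?_⟩
      · rw [not_subset] at hcon
        obtain ⟨a, ha, ha'⟩ := hcon
        exact ⟨a, ha, ha'⟩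
      · refine hM.inv.closed.inter (IsOpen.isClosed_compl ?_)
        exact isOpen_iUnion fun j => hO.preimage (continuous_sh_iter j)
      · rintro p ⟨hp, hp'⟩
        refine ⟨hM.inv.inv p hp, ?_⟩
        simp only [mem_compl_iff, mem_iUnion, mem_preimage, not_exists] at hp' ⊢
        intro j
        have := hp' (j + 1)
        rwa [Function.iterate_succ_apply] at this
    have heq := hM.min _ hInv inter_subset_left
    obtain ⟨a, haO, haM⟩ := hne
    rw [← heq] at haM
    have := haM.2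
    simp only [mem_compl_iff, mem_iUnion, mem_preimage, not_exists] at this
    exact this 0 (by simpa using haO)
  obtain ⟨t, ht⟩ := hM.inv.closed.isCompact.elim_finite_subcover
    (fun j : ℕ => (sh^[j]) ⁻¹' O) (fun j => hO.preimage (continuous_sh_iter j)) hcov
  refine ⟨t.sup id, fun q hq => ?_⟩
  have := ht hq
  simp only [mem_iUnion, mem_preimage] at this
  obtain ⟨j, hj, hj'⟩ := this
  exact ⟨j, Finset.le_sup (f := id) hj, hj'⟩

/-- Orbits are dense in a minimal set. -/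
theorem IsMin.exists_iter_mem {M : Set (Ultrafilter ℕ)} (hM : IsMin M) {O : Set (Ultrafilter ℕ)}
    (hO : IsOpen O) (hne : (O ∩ M).Nonempty) {q : Ultrafilter ℕ} (hq : q ∈ M) :
    ∃ j, sh^[j] q ∈ O := by
  obtain ⟨N, hN⟩ := hM.syndetic hO hne
  obtain ⟨j, -, hj⟩ := hN q hq
  exact ⟨j, hj⟩

variable {Y : Type*} [TopologicalSpace Y]

/-- Uniform recurrence of a point of a topological dynamical system. -/
def UR (f : Y → Y) (x : Y) : Prop :=
  ∀ U ∈ 𝓝 x, ∃ N : ℕ, ∀ m : ℕ, ∃ n : ℕ, m ≤ n ∧ n ≤ m + N ∧ 1 ≤ n ∧ f^[n] x ∈ U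

theorem tendsto_sh_iter {f : Y → Y} (hf : Continuous f) {x y : Y} {p : Ultrafilter ℕ}
    (h : Tendsto (fun n => f^[n] x) p (𝓝 y)) (j : ℕ) :
    Tendsto (fun n => f^[n] x) (sh^[j] p) (𝓝 (f^[j] y)) := by
  have h1 : Tendsto (fun n => f^[j] (f^[n] x)) p (𝓝 (f^[j] y)) :=
    ((hf.iterate j).tendsto y).comp h
  intro U hU
  rw [mem_map]
  show (fun n => f^[n] x) ⁻¹' U ∈ sh^[j] p
  rw [mem_sh_iter]
  have h2 : (fun n => f^[j] (f^[n] x)) ⁻¹' U ∈ p := h1 hU
  have h3 : {n | n + j ∈ (fun n => f^[n] x) ⁻¹' U} = (fun n => f^[j] (f^[n] x)) ⁻¹' U := by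
    ext n
    show f^[n + j] x ∈ U ↔ f^[j] (f^[n] x) ∈ U
    rw [← Function.iterate_add_apply, add_comm]
  rw [h3]
  exact h2

/-- A uniformly recurrent point is recovered along some ultrafilter of any minimal set. -/
theorem exists_tendsto_self {M : Set (Ultrafilter ℕ)} (hM : IsMin M) {f : Y → Y} {x : Y}
    (hx : UR f x) : ∃ r ∈ M, Tendsto (fun n => f^[n] x) r (𝓝 x) := by
  let K : {U : Set Y // U ∈ 𝓝 x} → Set (Ultrafilter ℕ) :=
    fun U => M ∩ {q | {n | f^[n] x ∈ U.1} ∈ q}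
  have hK : (⋂ U, K U).Nonempty := by
    haveI : Nonempty {U : Set Y // U ∈ 𝓝 x} := ⟨⟨univ, univ_mem⟩⟩
    apply IsCompact.nonempty_iInter_of_directed_nonempty_isCompact_isClosed
    · intro U V
      refine ⟨⟨U.1 ∩ V.1, inter_mem U.2 V.2⟩, ?_, ?_⟩
      · rintro q ⟨hq, hq'⟩
        exact ⟨hq, mem_of_superset hq' fun n hn => hn.1⟩
      · rintro q ⟨hq, hq'⟩
        exact ⟨hq, mem_of_superset hq' fun n hn => hn.2⟩
    · intro U
      obtain ⟨N, hN⟩ := hx U.1 U.2
      obtain ⟨q, hq⟩ := hM.inv.ne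
      have hcov : (⋃ j ∈ (Finset.range (N + 1) : Set ℕ), {m | m + j ∈ {n | f^[n] x ∈ U.1}}) ∈ q := by
        have : (⋃ j ∈ (Finset.range (N + 1) : Set ℕ), {m | m + j ∈ {n | f^[n] x ∈ U.1}}) = univ := by
          apply eq_univ_of_forall
          intro m
          obtain ⟨n, h1, h2, -, h4⟩ := hN m
          rw [mem_iUnion₂]
          refine ⟨n - m, by simp; omega, ?_⟩
          show f^[m + (n - m)] x ∈ U.1
          rw [show m + (n - m) = n by omega]
          exact h4
        rw [this]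
        exact univ_mem
      rw [Ultrafilter.finite_biUnion_mem_iff (Finset.finite_toSet (Finset.range (N + 1)))] at hcov
      obtain ⟨j, -, hj⟩ := hcov
      refine ⟨sh^[j] q, hM.inv.iter j q hq, ?_⟩
      show {n | f^[n] x ∈ U.1} ∈ sh^[j] q
      rw [mem_sh_iter]
      exact hj
    · exact fun U => (hM.inv.closed.inter (ultrafilter_isClosed_basic _)).isCompact
    · exact fun U => hM.inv.closed.inter (ultrafilter_isClosed_basic _)
  obtain ⟨r, hr⟩ := hK
  rw [mem_iInter] at hr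
  refine ⟨r, (hr ⟨univ, univ_mem⟩).1, ?_⟩
  intro U hU
  exact (hr ⟨U, hU⟩).2

/-- Limits along members of a minimal set are uniformly recurrent. -/
theorem ur_of_tendsto [RegularSpace Y] {M : Set (Ultrafilter ℕ)} (hM : IsMin M) {f : Y → Y}
    (hf : Continuous f) {x v : Y} {p : Ultrafilter ℕ} (hp : p ∈ M)
    (h : Tendsto (fun n => f^[n] x) p (𝓝 v)) : UR f v := by
  intro U hU
  obtain ⟨V, hV, hVc, hVU⟩ := exists_mem_nhds_isClosed_subset hU
  have hA : {n | f^[n] x ∈ V} ∈ p := h hV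
  obtain ⟨N, hN⟩ := hM.syndetic (ultrafilter_isOpen_basic {n | f^[n] x ∈ V}) ⟨p, hA, hp⟩
  refine ⟨N + 1, fun m => ?_⟩
  obtain ⟨j, hj, hj'⟩ := hN _ (hM.inv.iter (m + 1) p hp)
  refine ⟨m + 1 + j, by omega, by omega, by omega, hVU ?_⟩
  have hj2 : {n | f^[n] x ∈ V} ∈ sh^[m + 1 + j] p := by
    rw [add_comm, Function.iterate_add_apply]
    exact hj'
  have h2 := tendsto_sh_iter hf h (m + 1 + j)
  exact hVc.mem_of_tendsto h2 hj2

/-- A recovered point lies in the closure of the orbit of every limit point. -/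
theorem mem_closure_orbit [RegularSpace Y] {M : Set (Ultrafilter ℕ)} (hM : IsMin M) {f : Y → Y}
    (hf : Continuous f) {x y : Y} (hx : UR f x) {p : Ultrafilter ℕ} (hp : p ∈ M)
    (h : Tendsto (fun n => f^[n] x) p (𝓝 y)) : x ∈ closure (range fun j : ℕ => f^[j] y) := by
  rw [mem_closure_iff_nhds]
  intro U hU
  obtain ⟨V, hV, hVc, hVU⟩ := exists_mem_nhds_isClosed_subset hU
  obtain ⟨r, hr, hrx⟩ := exists_tendsto_self hM hx
  obtain ⟨j, hj⟩ := hM.exists_iter_mem (ultrafilter_isOpen_basic {n | f^[n] x ∈ V})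
    ⟨r, hrx hV, hr⟩ hp
  exact ⟨f^[j] y, hVU (hVc.mem_of_tendsto (tendsto_sh_iter hf h j) hj), ⟨j, rfl⟩⟩

/-- Baire category in the minimal set: countably many uniformly recurrent points converge
along a common member of the minimal set. -/
theorem exists_common {Y : Type*} [TopologicalSpace Y] [TopologicalSpace.IsCompletelyMetrizableSpace Y]
    {M : Set (Ultrafilter ℕ)}
    (hM : IsMin M) {f : Y → Y} (hf : Continuous f) {C : Set Y} (hC : C.Countable)
    (hUR : ∀ x ∈ C, UR f x) :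
    ∃ p ∈ M, ∀ x ∈ C, ∃ y, Tendsto (fun n => f^[n] x) p (𝓝 y) := by
  letI := TopologicalSpace.upgradeIsCompletelyMetrizable Y
  haveI : CompactSpace M := isCompact_iff_compactSpace.1 hM.inv.closed.isCompact
  haveI : Nonempty M := hM.inv.ne.coe_sort
  haveI : Countable C := hC.to_subtype
  let O : C × ℕ → Set M := fun i =>
    {p | ∃ y, {n | dist (f^[n] i.1.1) y < 1 / ((i.2 : ℝ) + 1)} ∈ (p : Ultrafilter ℕ)}
  have hOopen : ∀ i, IsOpen (O i) := by
    intro i
    have : O i = ⋃ y, (Subtype.val : M → Ultrafilter ℕ) ⁻¹'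
        {q | {n | dist (f^[n] i.1.1) y < 1 / ((i.2 : ℝ) + 1)} ∈ q} := by
      ext p
      simp [O]
    rw [this]
    exact isOpen_iUnion fun y => (ultrafilter_isOpen_basic _).preimage continuous_subtype_val
  have hOdense : ∀ i, Dense (O i) := by
    rintro ⟨⟨x, hx⟩, k⟩
    obtain ⟨r, hr, hrx⟩ := exists_tendsto_self hM (hUR x hx)
    rw [dense_iff_inter_open]
    rintro W hW ⟨q, hq⟩
    obtain ⟨W', hW', rfl⟩ := isOpen_induced_iff.1 hW
    obtain ⟨j, hj⟩ := hM.exists_iter_mem hW' ⟨q.1, hq, q.2⟩ hr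
    refine ⟨⟨sh^[j] r, hM.inv.iter j r hr⟩, hj, f^[j] x, ?_⟩
    have h1 := tendsto_sh_iter hf hrx j
    have h2 := h1 (Metric.ball_mem_nhds _ (by positivity : (0 : ℝ) < 1 / ((k : ℝ) + 1)))
    exact h2
  obtain ⟨p, hp⟩ := (dense_iInter_of_isOpen hOopen hOdense).nonempty
  rw [mem_iInter] at hp
  refine ⟨p, p.2, fun x hx => ?_⟩
  have hcau : Cauchy (map (fun n => f^[n] x) (p : Ultrafilter ℕ)) := by
    rw [Metric.cauchy_iff]
    refine ⟨inferInstance, fun ε hε => ?_⟩
    obtain ⟨k, hk⟩ := exists_nat_one_div_lt (half_pos hε)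
    obtain ⟨y, hy⟩ := hp (⟨x, hx⟩, k)
    refine ⟨Metric.ball y (ε / 2), ?_, ?_⟩
    · rw [mem_map]
      refine mem_of_superset hy fun n hn => ?_
      exact Metric.mem_ball.2 (lt_trans hn hk)
    · intro a ha b hb
      have h1 := Metric.mem_ball.1 ha
      have h2 := Metric.mem_ball'.1 hb
      calc dist a b ≤ dist a y + dist y b := dist_triangle _ _ _
        _ < ε / 2 + ε / 2 := add_lt_add h1 h2
        _ = ε := by ring
  obtain ⟨y, hy⟩ := CompleteSpace.complete hcau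
  exact ⟨y, hy⟩

end Pool.Agent.Lib_MP_3dc43d_an
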